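import Mathlib

set_option autoImplicit false

namespace Pool.Agent.Results.MP_49092c_al.Disproof

universe u

section Defs

open MvPolynomial

variable {K : Type u} [Field K] {n : ℕ}

/-- The element `r` of `K[x_1,…,x_n]/J` is the class of a form of degree `d`. -/
def IsForm (J : Ideal (MvPolynomial (Fin n) K)) (d : ℕ) (r : MvPolynomial (Fin n) K ⧸ J) : Prop :=
  ∃ p : MvPolynomial (Fin n) K, p.IsHomogeneous d ∧ Ideal.Quotient.mk J p = r

/-- `J` is a homogeneous ideal contained in `(x_1,…,x_n)^2`. -/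
def IsStandard (J : Ideal (MvPolynomial (Fin n) K)) : Prop :=
  (∀ p ∈ J, ∀ i : ℕ, homogeneousComponent i p ∈ J) ∧
    J ≤ Ideal.span (Set.range (X : Fin n → MvPolynomial (Fin n) K)) ^ 2

/-- The ideal `I` of `K[x_1,…,x_n]/J` is generated by linear forms. -/
def LinearlyGenerated (J : Ideal (MvPolynomial (Fin n) K))
    (I : Ideal (MvPolynomial (Fin n) K ⧸ J)) : Prop :=
  I = Ideal.span {r | r ∈ I ∧ IsForm J 1 r}

/-- The ideal `I` of `R = K[x_1,…,x_n]/J` has a `d`-linear graded free resolution over `R`. -/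
def HasLinearResolution (J : Ideal (MvPolynomial (Fin n) K))
    (I : Ideal (MvPolynomial (Fin n) K ⧸ J)) (d : ℕ) : Prop :=
  ∃ (b : ℕ → ℕ) (g : Fin (b 0) → MvPolynomial (Fin n) K ⧸ J)
    (A : (i : ℕ) → Matrix (Fin (b i)) (Fin (b (i + 1))) (MvPolynomial (Fin n) K ⧸ J)),
    (∀ j, IsForm J d (g j)) ∧ (∀ i r c, IsForm J 1 (A i r c)) ∧
    Ideal.span (Set.range g) = I ∧
    (∀ v : Fin (b 0) → MvPolynomial (Fin n) K ⧸ J,
      ∑ j, v j * g j = 0 ↔ ∃ w, (A 0).mulVec w = v) ∧
    (∀ (i : ℕ) (v : Fin (b (i + 1)) → MvPolynomial (Fin n) K ⧸ J),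
      (A i).mulVec v = 0 ↔ ∃ w, (A (i + 1)).mulVec w = v)

/-- `K[x_1,…,x_n]/J` is universally Koszul: all ideals generated by linear forms have a linear
resolution. -/
def UniversallyKoszul (J : Ideal (MvPolynomial (Fin n) K)) : Prop :=
  ∀ I : Ideal (MvPolynomial (Fin n) K ⧸ J), LinearlyGenerated J I → HasLinearResolution J I 1

end Defs

section Abstract

variable {R : Type u} [CommRing R]

/-- `I` is generated by elements satisfying `L`. -/
def LinGen (L : R → Prop) (I : Ideal R) : Prop := I = Ideal.span {r | r ∈ I ∧ L r}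

/-- Submodules with linear quotients: built from `0` by adding one element at a time, with
linearly generated annihilators of the successive quotients. -/
inductive LF (L : R → Prop) {M : Type u} [AddCommGroup M] [Module R M] (P : M → Prop) :
    Submodule R M → Prop
  | bot : LF L P ⊥
  | step (N : Submodule R M) (a : M) (hN : LF L P N) (ha : P a)
      (hC : LinGen L (N.comap (LinearMap.toSpanSingleton R M a))) :
      LF L P (N ⊔ Submodule.span R {a})

/-- The colon property: all colon ideals of linear ideals by linear forms are linear. -/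
def ColonProp (L : R → Prop) : Prop :=
  ∀ C : Ideal R, LinGen L C → ∀ c, L c → c ∉ C →
    LinGen L (Submodule.comap (LinearMap.toSpanSingleton R R c) C)

/-- The abstract homogeneous lifting property. -/
def LiftProp (L : R → Prop) : Prop :=
  ∀ (m m' : ℕ) (A : Matrix (Fin m) (Fin m') R) (a : Fin m → R) (c : R) (w : Fin m' → R),
    (∀ i j, L (A i j)) → (∀ i, L (a i)) → L c → A.mulVec w = c • a →
    ∃ w' : Fin m' → R, (∀ j, L (w' j)) ∧ A.mulVec w' = c • a

variable {L : R → Prop}

lemma linGen_span (T : Set R) (hT : ∀ r ∈ T, L r) : LinGen L (Ideal.span T) := by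
  apply le_antisymm
  · apply Ideal.span_mono
    intro r hr
    exact ⟨Ideal.subset_span hr, hT r hr⟩
  · rw [Ideal.span_le]
    intro r hr
    exact hr.1

lemma LF.of_finset (hcol : ColonProp L) (T : Finset R)
    (hT : ∀ r ∈ T, L r) : LF L L (Ideal.span (T : Set R)) := by
  classical
  induction T using Finset.induction_on with
  | empty => simpa using LF.bot
  | insert a T _ ih =>
    have hT' : ∀ r ∈ T, L r := fun r hr => hT r (Finset.mem_insert_of_mem hr)
    have h1 : Ideal.span ((insert a T : Finset R) : Set R) =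
        Ideal.span (T : Set R) ⊔ Submodule.span R {a} := by
      rw [Finset.coe_insert, Ideal.span_insert, sup_comm]
    by_cases hmem : a ∈ Ideal.span (T : Set R)
    · have : Ideal.span (T : Set R) ⊔ Submodule.span R {a} =
          Ideal.span (T : Set R) := by
        rw [sup_eq_left, Submodule.span_singleton_le_iff_mem]
        exact hmem
      rw [h1, this]
      exact ih hT'
    · rw [h1]
      exact LF.step _ a (ih hT') (hT a (Finset.mem_insert_self _ _))
        (hcol _ (linGen_span _ hT') a (hT a (Finset.mem_insert_self _ _)) hmem)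

lemma LF.of_lin [IsNoetherianRing R] (hcol : ColonProp L) {C : Ideal R}
    (hC : LinGen L C) : LF L L C := by
  have hfg : C.FG := IsNoetherian.noetherian C
  unfold LinGen at hC
  rw [hC] at hfg
  obtain ⟨T, hT, hTC⟩ := (Submodule.fg_span_iff_fg_span_finset_subset _).mp hfg
  have := LF.of_finset hcol T (fun r hr => (hT hr).2)
  rw [hC]
  show LF L L (Submodule.span _ _)
  rw [hTC]
  exact this

lemma LF.map {M M' : Type u} [AddCommGroup M] [Module R M]
    [AddCommGroup M'] [Module R M'] {P : M → Prop} {P' : M' → Prop}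
    (f : M →ₗ[R] M') (hf : Function.Injective f)
    (hP : ∀ m, P m → P' (f m)) {N : Submodule R M} (hN : LF L P N) :
    LF L P' (N.map f) := by
  induction hN with
  | bot => rw [Submodule.map_bot]; exact LF.bot
  | step N a _ ha hC ih =>
    rw [Submodule.map_sup, Submodule.map_span, Set.image_singleton]
    refine LF.step _ _ ih (hP a ha) ?_
    have : Submodule.comap (LinearMap.toSpanSingleton R M' (f a)) (Submodule.map f N) =
        Submodule.comap (LinearMap.toSpanSingleton R M a) N := by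
      ext r
      simp only [Submodule.mem_comap, LinearMap.toSpanSingleton_apply]
      rw [← map_smul]
      constructor
      · rintro ⟨m, hm, h⟩
        rw [← hf h]; exact hm
      · intro h
        exact ⟨_, h, rfl⟩
    rw [this]
    exact hC

/-- Entrywise linear vectors. -/
def LinVec (L : R → Prop) (m : ℕ) (a : Fin m → R) : Prop := ∀ i, L (a i)

/-- Zero extension of vectors. -/
def ext0 (R : Type u) [CommRing R] (m : ℕ) : (Fin m → R) →ₗ[R] (Fin (m + 1) → R) where
  toFun v := Fin.snoc v 0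
  map_add' v w := by
    ext i
    refine Fin.lastCases ?_ (fun i => ?_) i <;> simp
  map_smul' r v := by
    ext i
    refine Fin.lastCases ?_ (fun i => ?_) i <;> simp

/-- The last coordinate. -/
def lastCo (R : Type u) [CommRing R] (m : ℕ) : (Fin (m + 1) → R) →ₗ[R] R :=
  LinearMap.proj (Fin.last m)

lemma lastCo_apply (m : ℕ) (v : Fin (m + 1) → R) : lastCo R m v = v (Fin.last m) := rfl

/-- Main step: a submodule with linear quotients is the image of a matrix of linear forms whose
kernel has linear quotients. -/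
lemma LF.matrix [IsNoetherianRing R] (h0 : L 0) (hneg : ∀ r, L r → L (-r)) (hlift : LiftProp L)
    (hcol : ColonProp L) {m : ℕ} {N : Submodule R (Fin m → R)} (hN : LF L (LinVec L m) N) :
    ∃ (m' : ℕ) (A : Matrix (Fin m) (Fin m') R),
      (∀ i j, L (A i j)) ∧ LinearMap.range A.mulVecLin = N ∧
      LF L (LinVec L m') (LinearMap.ker A.mulVecLin) := by
  induction hN with
  | bot =>
    refine ⟨0, 0, fun i j => j.elim0, ?_, ?_⟩
    · rw [Matrix.mulVecLin_zero]; exact LinearMap.range_zero
    · have : LinearMap.ker (0 : Matrix (Fin m) (Fin 0) R).mulVecLin = ⊥ := by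
        apply Subsingleton.elim
      rw [this]
      exact LF.bot
  | step N a _ ha hC ih =>
    obtain ⟨m', A', hA', hran, hker⟩ := ih
    let A : Matrix (Fin m) (Fin (m' + 1)) R := Matrix.of fun i => Fin.snoc (A' i) (a i)
    have hAv : ∀ v : Fin (m' + 1) → R,
        A.mulVec v = A'.mulVec (Fin.init v) + v (Fin.last m') • a := by
      intro v
      ext i
      simp only [Matrix.mulVec, dotProduct, Pi.add_apply, Pi.smul_apply, smul_eq_mul]
      rw [Fin.sum_univ_castSucc]
      simp [A, Fin.init, mul_comm]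
    refine ⟨m' + 1, A, ?_, ?_, ?_⟩
    · intro i j
      refine Fin.lastCases ?_ (fun j => ?_) j
      · simpa [A] using ha i
      · simpa [A] using hA' i j
    · apply le_antisymm
      · rintro _ ⟨v, rfl⟩
        rw [Matrix.mulVecLin_apply, hAv]
        refine Submodule.add_mem_sup ?_ (Submodule.smul_mem _ _ (Submodule.mem_span_singleton_self a))
        rw [← hran]
        exact ⟨_, rfl⟩
      · rw [sup_le_iff, Submodule.span_singleton_le_iff_mem]
        constructor
        · rw [← hran]
          rintro _ ⟨v, rfl⟩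
          refine ⟨Fin.snoc v 0, ?_⟩
          rw [Matrix.mulVecLin_apply, hAv]
          simp only [Fin.init_snoc, Fin.snoc_last, Matrix.mulVecLin_apply]
          rw [zero_smul, add_zero]
        · refine ⟨Fin.snoc 0 1, ?_⟩
          rw [Matrix.mulVecLin_apply, hAv]
          simp
    · -- the kernel
      have claim : ∀ C : Ideal R, LF L L C →
          C ≤ N.comap (LinearMap.toSpanSingleton R _ a) →
          LF L (LinVec L (m' + 1)) (LinearMap.ker A.mulVecLin ⊓ Submodule.comap (lastCo R m') C) := by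
        intro C hC
        induction hC with
        | bot =>
          intro _
          have h1 : LF L (LinVec L (m' + 1)) ((LinearMap.ker A'.mulVecLin).map (ext0 R m')) := by
            refine LF.map (P := LinVec L m') (ext0 R m') ?_ ?_ hker
            · intro v w hvw
              ext i
              have := congrFun hvw (Fin.castSucc i)
              simpa [ext0] using this
            · intro v hv i
              refine Fin.lastCases ?_ (fun i => ?_) i
              · simpa [ext0] using h0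
              · simpa [ext0] using hv i
          convert h1 using 1
          ext w
          simp only [Submodule.mem_inf, LinearMap.mem_ker, Matrix.mulVecLin_apply,
            Submodule.mem_comap, lastCo_apply, Submodule.mem_bot, Submodule.mem_map, hAv]
          constructor
          · rintro ⟨hw1, hw2⟩
            rw [hw2, zero_smul, add_zero] at hw1
            refine ⟨Fin.init w, hw1, ?_⟩
            show Fin.snoc (Fin.init w) 0 = w
            rw [← hw2, Fin.snoc_init_self]
          · rintro ⟨v, hv, rfl⟩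
            constructor
            · simp [ext0, hv]
            · simp [ext0]
        | step C c _ hc hCc ihC =>
          intro hle
          have hle' : C ≤ N.comap (LinearMap.toSpanSingleton R _ a) := le_trans le_sup_left hle
          have hcmem : c • a ∈ N := by
            have : c ∈ N.comap (LinearMap.toSpanSingleton R _ a) :=
              hle (Submodule.mem_sup_right (Submodule.mem_span_singleton_self c))
            simpa using this
          rw [← hran] at hcmem
          obtain ⟨w0, hw0⟩ := hcmem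
          obtain ⟨W, hW, hWeq⟩ := hlift m m' A' a c w0 hA' ha hc hw0
          let zv : Fin (m' + 1) → R := Fin.snoc (-W) c
          have hzker : A.mulVec zv = 0 := by
            rw [hAv]
            simp only [zv, Fin.init_snoc, Fin.snoc_last]
            rw [Matrix.mulVec_neg, hWeq, neg_add_cancel]
          have hnew : LinearMap.ker A.mulVecLin ⊓
              Submodule.comap (lastCo R m') (C ⊔ Submodule.span R {c}) =
              (LinearMap.ker A.mulVecLin ⊓ Submodule.comap (lastCo R m') C) ⊔ Submodule.span R {zv} := by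
            apply le_antisymm
            · rintro w ⟨hw1, hw2⟩
              obtain ⟨p, hp, q, hq, hpq⟩ := Submodule.mem_sup.mp hw2
              obtain ⟨s, rfl⟩ := Submodule.mem_span_singleton.mp hq
              refine Submodule.mem_sup.mpr ⟨w - s • zv, ⟨?_, ?_⟩, s • zv,
                Submodule.smul_mem _ _ (Submodule.mem_span_singleton_self _), by simp⟩
              · refine Submodule.sub_mem _ hw1 (Submodule.smul_mem _ _ ?_)
                exact hzker
              · have : (w - s • zv) (Fin.last m') = p := by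
                  rw [lastCo_apply] at hpq
                  simp [zv, ← hpq]
                show (w - s • zv) (Fin.last m') ∈ C
                rw [this]; exact hp
            · rw [sup_le_iff]
              constructor
              · exact inf_le_inf_left _ (Submodule.comap_mono le_sup_left)
              · rw [Submodule.span_singleton_le_iff_mem]
                refine ⟨hzker, ?_⟩
                show zv (Fin.last m') ∈ C ⊔ Submodule.span R {c}
                simp only [zv, Fin.snoc_last]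
                exact Submodule.mem_sup_right (Submodule.mem_span_singleton_self c)
          rw [hnew]
          refine LF.step _ zv (ihC hle') ?_ ?_
          · intro i
            refine Fin.lastCases ?_ (fun j => ?_) i
            · simpa [zv] using hc
            · simpa [zv] using hneg _ (hW j)
          · convert hCc using 1
            ext s
            simp only [Submodule.mem_comap, LinearMap.toSpanSingleton_apply, Submodule.mem_inf,
              lastCo_apply, Pi.smul_apply]
            constructor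
            · rintro ⟨_, h2⟩
              simpa [zv] using h2
            · intro h2
              refine ⟨Submodule.smul_mem _ _ hzker, ?_⟩
              simpa [zv] using h2
      have hfin := claim _ (LF.of_lin hcol hC) le_rfl
      convert hfin using 1
      symm
      rw [inf_eq_left]
      intro w hw
      have hw' : A.mulVec w = 0 := hw
      rw [hAv] at hw'
      show w (Fin.last m') • a ∈ N
      rw [← hran]
      refine ⟨-Fin.init w, ?_⟩
      rw [map_neg, Matrix.mulVecLin_apply, neg_eq_iff_add_eq_zero]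
      exact hw'

/-- A state of the recursive construction of the resolution. -/
structure State (L : R → Prop) : Type u where
  m : ℕ
  N : Submodule R (Fin m → R)
  h : LF L (LinVec L m) N

lemma resolution_aux [IsNoetherianRing R] (h0 : L 0) (hneg : ∀ r, L r → L (-r))
    (hlift : LiftProp L) (hcol : ColonProp L)
    (s : State L) : ∃ (s' : State L) (A : Matrix (Fin s.m) (Fin s'.m) R),
      (∀ i j, L (A i j)) ∧ LinearMap.range A.mulVecLin = s.N ∧
      LinearMap.ker A.mulVecLin = s'.N := by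
  obtain ⟨m', A, h1, h2, h3⟩ := LF.matrix h0 hneg hlift hcol s.h
  exact ⟨⟨m', _, h3⟩, A, h1, h2, rfl⟩

/-- Every linearly generated ideal has a linear resolution. -/
theorem exists_linear_resolution [IsNoetherianRing R] (h0 : L 0) (hneg : ∀ r, L r → L (-r))
    (hlift : LiftProp L) (hcol : ColonProp L) (I : Ideal R) (hI : LinGen L I) :
    ∃ (b : ℕ → ℕ) (g : Fin (b 0) → R) (A : (i : ℕ) → Matrix (Fin (b i)) (Fin (b (i + 1))) R),
    (∀ j, L (g j)) ∧ (∀ i r c, L (A i r c)) ∧
    Ideal.span (Set.range g) = I ∧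
    (∀ v : Fin (b 0) → R, ∑ j, v j * g j = 0 ↔ ∃ w, (A 0).mulVec w = v) ∧
    (∀ (i : ℕ) (v : Fin (b (i + 1)) → R),
      (A i).mulVec v = 0 ↔ ∃ w, (A (i + 1)).mulVec w = v) := by
  choose nxt mat h1 h2 h3 using resolution_aux h0 hneg hlift hcol
  have hI0 : LF L L I := LF.of_lin hcol hI
  let ι : R →ₗ[R] (Fin 1 → R) := LinearMap.pi fun _ => LinearMap.id
  have hι : LF L (LinVec L 1) (Submodule.map ι I) := by
    refine LF.map (P := L) ι ?_ ?_ hI0
    · intro v w hvw
      have := congrFun hvw 0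
      simpa [ι] using this
    · intro v hv i
      simpa [ι] using hv
  let s : ℕ → State L := fun i => Nat.rec ⟨1, _, hι⟩ (fun _ t => nxt t) i
  let g : Fin (s 1).m → R := fun j => mat (s 0) (0 : Fin 1) j
  have hg : ∀ v : Fin (s 1).m → R, (mat (s 0)).mulVec v (0 : Fin 1) = ∑ j, v j * g j := by
    intro v
    simp only [Matrix.mulVec, dotProduct]
    exact Finset.sum_congr rfl fun j _ => mul_comm _ _
  have hker : ∀ i (v : Fin (s (i + 1)).m → R), (mat (s i)).mulVec v = 0 ↔
      ∃ w, (mat (s (i + 1))).mulVec w = v := by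
    intro i v
    have e1 : (mat (s i)).mulVec v = 0 ↔ v ∈ LinearMap.ker (mat (s i)).mulVecLin := by
      rw [LinearMap.mem_ker, Matrix.mulVecLin_apply]
    have e2 : LinearMap.ker (mat (s i)).mulVecLin = (s (i + 1)).N := h3 (s i)
    rw [e1, e2, ← h2 (s (i + 1))]
    rfl
  refine ⟨fun i => (s (i + 1)).m, g, fun i => mat (s (i + 1)), ?_, ?_, ?_, ?_, ?_⟩
  · intro j
    exact h1 (s 0) (0 : Fin 1) j
  · intro i r c
    exact h1 (s (i + 1)) r c
  · have hr := h2 (s 0)
    apply le_antisymm
    · rw [Ideal.span_le]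
      rintro _ ⟨j, rfl⟩
      have : (mat (s 0)).mulVecLin (Pi.single j 1) ∈ (s 0).N := by
        rw [← hr]; exact ⟨_, rfl⟩
      obtain ⟨r, hrI, hr2⟩ := this
      have h4 := congrFun hr2 (0 : Fin 1)
      rw [Matrix.mulVecLin_apply] at h4
      have h5 : (mat (s 0)).mulVec (Pi.single j 1) (0 : Fin 1) = g j := by
        simp [g]
      have h6 : r = g j := h4.trans h5
      rw [← h6]
      exact hrI
    · intro r hrI
      have : ι r ∈ (s 0).N := ⟨r, hrI, rfl⟩
      rw [← hr] at this
      obtain ⟨v, hv⟩ := this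
      have h4 := congrFun hv (0 : Fin 1)
      rw [Matrix.mulVecLin_apply, hg] at h4
      have h6 : r = ∑ j, v j * g j := h4.symm
      rw [h6]
      exact Ideal.sum_mem _ fun j _ => Ideal.mul_mem_left _ _ (Ideal.subset_span ⟨j, rfl⟩)
  · intro v
    refine Iff.trans ?_ (hker 0 v)
    constructor
    · intro h
      ext i
      have hi : i = (0 : Fin 1) := Subsingleton.elim (α := Fin 1) _ _
      rw [hi]
      exact (hg v).trans h
    · intro h
      exact (hg v).symm.trans (congrFun h (0 : Fin 1))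
  · intro i v
    exact hker (i + 1) v

end Abstract

section Poly

open Polynomial

variable {K : Type u} [Field K] {R : Type u} [CommRing R] [Algebra K R]

/-- Linear forms of `R[X]`. -/
def polyLin (L : Submodule K R) : Submodule K R[X] where
  carrier := {f | ∃ r ∈ L, ∃ k : K, f = C r + k • X}
  add_mem' := by
    rintro _ _ ⟨r, hr, k, rfl⟩ ⟨r', hr', k', rfl⟩
    exact ⟨r + r', L.add_mem hr hr', k + k', by rw [C_add, add_smul]; abel⟩
  zero_mem' := ⟨0, L.zero_mem, 0, by simp⟩
  smul_mem' := by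
    rintro c _ ⟨r, hr, k, rfl⟩
    refine ⟨c • r, L.smul_mem c hr, c * k, ?_⟩
    rw [smul_add, mul_smul, Polynomial.smul_C]

lemma C_mem_polyLin {L : Submodule K R} {r : R} (h : r ∈ L) : C r ∈ polyLin L :=
  ⟨r, h, 0, by simp⟩

lemma mem_comap_iff {A : Type*} [CommRing A] (I : Ideal A) (c f : A) :
    f ∈ Submodule.comap (LinearMap.toSpanSingleton A A c) I ↔ f * c ∈ I := by
  simp [LinearMap.toSpanSingleton_apply]

lemma colonProp_poly (L : Submodule K R) (hL : ColonProp (fun r => r ∈ L)) :
    ColonProp (fun f => f ∈ polyLin L) := by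
  intro D hD c hc hcD
  by_cases hcase : ∃ r0 ∈ L, C r0 + X ∈ D
  · -- there is a form with nonzero coefficient of `X`
    obtain ⟨r0, hr0, hmem⟩ := hcase
    let ρ : R[X] →+* R := evalRingHom (-r0)
    have hρC : ∀ r, ρ (C r) = r := fun r => by simp [ρ]
    have hρX : ρ X = -r0 := by simp [ρ]
    have hsplit : ∀ f : R[X], ∃ g, f = C (ρ f) + (C r0 + X) * g := by
      intro f
      have h1 : (X - C (-r0)) ∣ f - C (f.eval (-r0)) := X_sub_C_dvd_sub_C_eval
      obtain ⟨g, hg⟩ := h1
      refine ⟨g, ?_⟩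
      have : f = C (f.eval (-r0)) + (X - C (-r0)) * g := by rw [← hg]; ring
      calc f = C (f.eval (-r0)) + (X - C (-r0)) * g := this
        _ = C (ρ f) + (C r0 + X) * g := by
            simp only [ρ, coe_evalRingHom, C_neg]; ring
    have hmemiff : ∀ f : R[X], f ∈ D ↔ C (ρ f) ∈ D := by
      intro f
      obtain ⟨g, hg⟩ := hsplit f
      constructor
      · intro hf
        have : C (ρ f) = f - (C r0 + X) * g := by
          rw [eq_sub_iff_add_eq]; exact hg.symm
        rw [this]
        exact D.sub_mem hf (D.mul_mem_right _ hmem)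
      · intro hf
        rw [hg]
        exact D.add_mem hf (D.mul_mem_right _ hmem)
    let D0 : Ideal R := Ideal.span {r | r ∈ L ∧ C r ∈ D}
    have hD0 : LinGen (fun r => r ∈ L) D0 := linGen_span _ (fun r hr => hr.1)
    have hD0le : ∀ r ∈ D0, C r ∈ D := by
      intro r hr
      have : D0 ≤ D.comap C := by
        rw [Ideal.span_le]
        intro r hr
        exact hr.2
      exact this hr
    have hDD0 : ∀ f, f ∈ D ↔ ρ f ∈ D0 := by
      intro f
      constructor
      · intro hf
        have h1 : D ≤ D0.comap ρ := by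
          rw [hD, Ideal.span_le]
          rintro _ ⟨hgD, r, hr, k, rfl⟩
          rw [SetLike.mem_coe, Ideal.mem_comap]
          apply Ideal.subset_span
          constructor
          · rw [map_add, hρC]
            have : ρ (k • X) = -(k • r0) := by
              rw [Algebra.smul_def, map_mul, hρX]
              have : ρ (algebraMap K R[X] k) = algebraMap K R k := by
                rw [Polynomial.algebraMap_apply, hρC]
              rw [this, Algebra.smul_def]; ring
            rw [this]
            exact L.add_mem hr (L.neg_mem (L.smul_mem k hr0))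
          · rw [← hmemiff]; exact hgD
        exact h1 hf
      · intro hf
        rw [hmemiff]
        exact hD0le _ hf
    have hρc : ρ c ∈ L := by
      obtain ⟨r, hr, k, rfl⟩ := hc
      rw [map_add, hρC]
      have : ρ (k • X) = -(k • r0) := by
        rw [Algebra.smul_def, map_mul, hρX]
        have : ρ (algebraMap K R[X] k) = algebraMap K R k := by
          rw [Polynomial.algebraMap_apply, hρC]
        rw [this, Algebra.smul_def]; ring
      rw [this]
      exact L.add_mem hr (L.neg_mem (L.smul_mem k hr0))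
    have hρc' : ρ c ∉ D0 := by rwa [← hDD0]
    have hE := hL D0 hD0 (ρ c) hρc hρc'
    set E : Ideal R := Submodule.comap (LinearMap.toSpanSingleton R R (ρ c)) D0 with hEdef
    have hEmem : ∀ r, r ∈ E ↔ r * ρ c ∈ D0 := fun r => mem_comap_iff _ _ _
    have hfin : Submodule.comap (LinearMap.toSpanSingleton R[X] R[X] c) D =
        Ideal.span ({C r0 + X} ∪ C '' {r | r ∈ E ∧ r ∈ L}) := by
      apply le_antisymm
      · intro f hf
        rw [mem_comap_iff, hDD0, map_mul, ← hEmem] at hf
        obtain ⟨g, hg⟩ := hsplit f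
        rw [hg]
        refine Ideal.add_mem _ ?_ (Ideal.mul_mem_right _ _ (Ideal.subset_span (Or.inl rfl)))
        rw [hE] at hf
        have h2 : Ideal.span {r | r ∈ E ∧ r ∈ L} ≤
            (Ideal.span ({C r0 + X} ∪ C '' {r | r ∈ E ∧ r ∈ L})).comap C := by
          rw [Ideal.span_le]
          intro r hr
          exact Ideal.subset_span (Or.inr ⟨r, hr, rfl⟩)
        exact h2 hf
      · rw [Ideal.span_le]
        rintro f (hf | ⟨r, ⟨hrE, _⟩, rfl⟩)
        · rw [Set.mem_singleton_iff] at hf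
          rw [hf, SetLike.mem_coe, mem_comap_iff]
          exact D.mul_mem_right _ hmem
        · rw [SetLike.mem_coe, mem_comap_iff, hDD0, map_mul, hρC, ← hEmem]
          exact hrE
    rw [hfin]
    refine linGen_span _ ?_
    rintro f (hf | ⟨r, ⟨_, hrL⟩, rfl⟩)
    · rw [Set.mem_singleton_iff] at hf
      rw [hf]
      exact ⟨r0, hr0, 1, by simp⟩
    · exact C_mem_polyLin hrL
  · -- all linear forms in `D` come from `R`
    have hno : ∀ f ∈ D, f ∈ polyLin L → ∃ r ∈ L, f = C r := by
      rintro _ hfD ⟨r, hr, k, rfl⟩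
      by_cases hk : k = 0
      · exact ⟨r, hr, by simp [hk]⟩
      · exfalso
        apply hcase
        refine ⟨k⁻¹ • r, L.smul_mem _ hr, ?_⟩
        have : C (k⁻¹ • r) + X = C (algebraMap K R k⁻¹) * (C r + k • X) := by
          rw [mul_add, ← C_mul, ← Algebra.smul_def]
          congr 1
          rw [← Polynomial.algebraMap_apply, ← Algebra.smul_def, smul_smul,
            inv_mul_cancel₀ hk, one_smul]
        rw [this]
        exact D.mul_mem_left _ hfD
    let D0 : Ideal R := Ideal.span {r | r ∈ L ∧ C r ∈ D}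
    have hD0 : LinGen (fun r => r ∈ L) D0 := linGen_span _ (fun r hr => hr.1)
    have hDmap : D = D0.map C := by
      apply le_antisymm
      · rw [hD, Ideal.span_le]
        rintro f ⟨hfD, hfL⟩
        obtain ⟨r, hr, rfl⟩ := hno f hfD hfL
        exact Ideal.mem_map_of_mem _ (Ideal.subset_span ⟨hr, hfD⟩)
      · rw [Ideal.map_le_iff_le_comap, Ideal.span_le]
        intro r hr
        exact hr.2
    have hDmem : ∀ f, f ∈ D ↔ ∀ i, f.coeff i ∈ D0 := by
      intro f
      rw [hDmap, Ideal.mem_map_C_iff]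
    obtain ⟨r, hr, k, rfl⟩ := hc
    by_cases hk : k = 0
    · subst hk
      simp only [zero_smul, add_zero] at hcD ⊢
      have hr' : r ∉ D0 := by
        intro h
        apply hcD
        rw [hDmap]
        exact Ideal.mem_map_of_mem _ h
      have hE := hL D0 hD0 r hr hr'
      set E : Ideal R := Submodule.comap (LinearMap.toSpanSingleton R R r) D0 with hEdef
      have hEmem : ∀ s, s ∈ E ↔ s * r ∈ D0 := fun s => mem_comap_iff _ _ _
      have hfin : Submodule.comap (LinearMap.toSpanSingleton R[X] R[X] (C r)) D =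
          Ideal.span (C '' {s | s ∈ E ∧ s ∈ L}) := by
        rw [← Ideal.map_span, ← hE]
        ext f
        rw [mem_comap_iff, hDmem, Ideal.mem_map_C_iff]
        simp only [coeff_mul_C, hEmem]
      rw [hfin]
      refine linGen_span _ ?_
      rintro _ ⟨s, ⟨_, hs⟩, rfl⟩
      exact C_mem_polyLin hs
    · have hfin : Submodule.comap (LinearMap.toSpanSingleton R[X] R[X] (C r + k • X)) D = D := by
        ext f
        rw [mem_comap_iff]
        constructor
        · intro hf
          rw [hDmem] at hf ⊢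
          have hrec : ∀ i, f.coeff (i + 1) ∈ D0 → f.coeff i ∈ D0 := by
            intro i hi
            have h1 := hf (i + 1)
            rw [mul_add, coeff_add, coeff_mul_C, mul_smul_comm, coeff_smul, coeff_mul_X] at h1
            have h2 : k • f.coeff i ∈ D0 := by
              have h3 := D0.sub_mem h1 (D0.mul_mem_right r hi)
              simpa using h3
            have h3 : k⁻¹ • (k • f.coeff i) ∈ D0 := by
              rw [Algebra.smul_def]
              exact D0.mul_mem_left _ h2
            rwa [smul_smul, inv_mul_cancel₀ hk, one_smul] at h3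
          have hbig : ∀ i, f.natDegree < i → f.coeff i ∈ D0 := by
            intro i hi
            rw [coeff_eq_zero_of_natDegree_lt hi]
            exact D0.zero_mem
          have hall : ∀ j i, f.natDegree + 1 ≤ i + j → f.coeff i ∈ D0 := by
            intro j
            induction j with
            | zero => intro i hi; exact hbig i (by omega)
            | succ j ih =>
              intro i hi
              exact hrec i (ih (i + 1) (by omega))
          intro i
          exact hall (f.natDegree + 1) i (by omega)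
        · intro hf
          exact D.mul_mem_right _ hf
      rw [hfin]
      exact hD


end Poly

section Base

variable (K : Type u) [Field K]

/-- `K[a,b]/(a^2,b^2)`. -/
abbrev BB : Type u := QuadraticAlgebra (QuadraticAlgebra K 0 0) 0 0

/-- linear forms of `K[a,b]/(a^2,b^2)` -/
def baseLin : Submodule K (BB K) where
  carrier := {f | ∃ p q : K, f = ⟨⟨0, p⟩, ⟨q, 0⟩⟩}
  add_mem' := by
    rintro _ _ ⟨p, q, rfl⟩ ⟨p', q', rfl⟩
    exact ⟨p + p', q + q', by ext <;> simp⟩
  zero_mem' := ⟨0, 0, by ext <;> simp⟩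
  smul_mem' := by
    rintro c _ ⟨p, q, rfl⟩
    exact ⟨c * p, c * q, by ext <;> simp⟩

variable {K}

/-- The maximal ideal. -/
lemma mem_max_iff (f : BB K) : f ∈ Ideal.span {r | r ∈ baseLin K} ↔ f.re.re = 0 := by
  constructor
  · intro h
    induction h using Submodule.span_induction with
    | mem f hf =>
      obtain ⟨p, q, rfl⟩ := hf
      rfl
    | zero => rfl
    | add f g _ _ hf hg => simp [hf, hg]
    | smul a f _ hf => simp [hf]
  · intro h
    have : f = ⟨⟨f.re.im, 0⟩, ⟨f.im.im, 0⟩⟩ * ⟨⟨0, 1⟩, ⟨0, 0⟩⟩ +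
        ⟨⟨f.im.re, 0⟩, ⟨0, 0⟩⟩ * ⟨⟨0, 0⟩, ⟨1, 0⟩⟩ := by
      ext <;> simp [h]
    rw [this]
    exact Ideal.add_mem _ (Ideal.mul_mem_left _ _ (Ideal.subset_span ⟨1, 0, rfl⟩))
      (Ideal.mul_mem_left _ _ (Ideal.subset_span ⟨0, 1, rfl⟩))

lemma colonProp_base : ColonProp (fun r : BB K => r ∈ baseLin K) := by
  intro D hD c hc hcD
  obtain ⟨p, q, rfl⟩ := hc
  by_cases hbot : ∃ f ∈ D, f ∈ baseLin K ∧ f ≠ 0
  · -- the colon ideal is the maximal ideal
    obtain ⟨f, hfD, ⟨p', q', rfl⟩, hf0⟩ := hbot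
    have hsoc : (⟨⟨0, 0⟩, ⟨0, 1⟩⟩ : BB K) ∈ D := by
      by_cases hp' : p' = 0
      · have hq' : q' ≠ 0 := by
          rintro rfl
          apply hf0
          rw [hp']
          rfl
        have : (⟨⟨0, 0⟩, ⟨0, 1⟩⟩ : BB K) = ⟨⟨0, q'⁻¹⟩, ⟨0, 0⟩⟩ * ⟨⟨0, p'⟩, ⟨q', 0⟩⟩ := by
          ext <;> simp [hq']
        rw [this]
        exact D.mul_mem_left _ hfD
      · have : (⟨⟨0, 0⟩, ⟨0, 1⟩⟩ : BB K) = ⟨⟨0, 0⟩, ⟨p'⁻¹, 0⟩⟩ * ⟨⟨0, p'⟩, ⟨q', 0⟩⟩ := by
          ext <;> simp [hp']
        rw [this]
        exact D.mul_mem_left _ hfD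
    have hfin : Submodule.comap (LinearMap.toSpanSingleton (BB K) (BB K) ⟨⟨0, p⟩, ⟨q, 0⟩⟩) D =
        Ideal.span {r | r ∈ baseLin K} := by
      ext g
      rw [mem_comap_iff, mem_max_iff]
      constructor
      · intro hg
        by_contra hne
        apply hcD
        have : (⟨⟨0, p⟩, ⟨q, 0⟩⟩ : BB K) = ⟨⟨g.re.re⁻¹, 0⟩, ⟨0, 0⟩⟩ * (g * ⟨⟨0, p⟩, ⟨q, 0⟩⟩) -
            ⟨⟨g.re.re⁻¹ * (g.re.im * q + g.im.re * p), 0⟩, ⟨0, 0⟩⟩ * ⟨⟨0, 0⟩, ⟨0, 1⟩⟩ := by
          ext <;> simp [hne]
        rw [this]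
        exact D.sub_mem (D.mul_mem_left _ hg) (D.mul_mem_left _ hsoc)
      · intro hg
        have : g * ⟨⟨0, p⟩, ⟨q, 0⟩⟩ = ⟨⟨g.re.im * q + g.im.re * p, 0⟩, ⟨0, 0⟩⟩ *
            (⟨⟨0, 0⟩, ⟨0, 1⟩⟩ : BB K) := by
          ext <;> simp [hg]
        rw [this]
        exact D.mul_mem_left _ hsoc
    rw [hfin]
    exact linGen_span _ (fun r hr => hr)
  · -- `D = 0`
    have hD0 : D = ⊥ := by
      rw [eq_bot_iff, hD, Ideal.span_le]
      rintro f ⟨hfD, hfL⟩
      by_contra hne
      exact hbot ⟨f, hfD, hfL, hne⟩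
    have hpq : ¬ (p = 0 ∧ q = 0) := by
      rintro ⟨rfl, rfl⟩
      exact hcD D.zero_mem
    have hfin : Submodule.comap (LinearMap.toSpanSingleton (BB K) (BB K) ⟨⟨0, p⟩, ⟨q, 0⟩⟩) D =
        Ideal.span {⟨⟨0, p⟩, ⟨-q, 0⟩⟩} := by
      ext g
      rw [mem_comap_iff, hD0, Ideal.mem_bot, Ideal.mem_span_singleton']
      constructor
      · intro hg
        have h1 := congrArg (fun w => w.re.im) hg
        have h2 := congrArg (fun w => w.im.re) hg
        have h3 := congrArg (fun w => w.im.im) hg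
        simp at h1 h2 h3
        by_cases hp : p = 0
        · have hq : q ≠ 0 := fun h => hpq ⟨hp, h⟩
          subst hp
          simp [hq] at h1 h2 h3
          refine ⟨⟨⟨-(q⁻¹ * g.im.re), -(q⁻¹ * g.im.im)⟩, ⟨0, 0⟩⟩, ?_⟩
          ext <;> simp [h2, h3]
          all_goals field_simp
        · simp [hp] at h1
          refine ⟨⟨⟨p⁻¹ * g.re.im, 0⟩, ⟨p⁻¹ * g.im.im, 0⟩⟩, ?_⟩
          have h4 : g.im.re = -(p⁻¹ * g.re.im * q) := by
            field_simp
            linear_combination h3
          ext <;> simp [h1, h4]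
          all_goals field_simp
      · rintro ⟨s, rfl⟩
        ext <;> simp <;> ring
    rw [hfin]
    refine linGen_span _ ?_
    intro r hr
    rw [Set.mem_singleton_iff] at hr
    rw [hr]
    exact ⟨p, -q, rfl⟩

end Base

section Equiv

variable {R : Type u} [CommRing R]

/-- The colon property is invariant under isomorphism. -/
lemma ColonProp.of_equiv {R' : Type u} [CommRing R'] (e : R ≃+* R') (L : R → Prop)
    (L' : R' → Prop) (hLL : ∀ r, L r ↔ L' (e r)) (h : ColonProp L') : ColonProp L := by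
  have key : ∀ I : Ideal R, LinGen L' (I.map e) ↔ LinGen L I := by
    intro I
    have hmem : ∀ r, e r ∈ I.map e ↔ r ∈ I := by
      intro r
      constructor
      · intro hr
        rw [← Ideal.comap_symm (f := e)] at hr
        simpa using hr
      · intro hr
        exact Ideal.mem_map_of_mem e hr
    have himg : {s | s ∈ I.map e ∧ L' s} = e '' {r | r ∈ I ∧ L r} := by
      ext s
      constructor
      · rintro ⟨h1, h2⟩
        refine ⟨e.symm s, ⟨?_, ?_⟩, by simp⟩
        · rw [← hmem]; simpa using h1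
        · rw [hLL]; simpa using h2
      · rintro ⟨r, ⟨h1, h2⟩, rfl⟩
        exact ⟨Ideal.mem_map_of_mem _ h1, (hLL r).mp h2⟩
    unfold LinGen
    rw [himg, ← Ideal.map_span]
    constructor
    · intro h
      have := congrArg (Ideal.comap e) h
      rw [Ideal.comap_map_of_bijective _ e.bijective, Ideal.comap_map_of_bijective _ e.bijective]
        at this
      exact this
    · intro h
      exact congrArg _ h
  intro C hC c hc hcC
  rw [← key] at hC ⊢
  have h1 := h _ hC (e c) ((hLL c).mp hc) (by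
    intro h2
    apply hcC
    rw [← Ideal.comap_symm (f := e)] at h2
    simpa using h2)
  convert h1 using 1
  ext s
  rw [mem_comap_iff]
  obtain ⟨r, rfl⟩ := e.surjective s
  rw [← map_mul]
  have hmem : ∀ (I : Ideal R) (r : R), e r ∈ I.map e ↔ r ∈ I := by
    intro I r
    constructor
    · intro hr
      rw [← Ideal.comap_symm (f := e)] at hr
      simpa using hr
    · intro hr
      exact Ideal.mem_map_of_mem e hr
  rw [hmem, hmem, mem_comap_iff]

end Equiv

section Graded

open MvPolynomial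

variable {K : Type u} [Field K] {n : ℕ}

attribute [local instance] MvPolynomial.gradedAlgebra

lemma comp_mul_right (d i : ℕ) (u q : MvPolynomial (Fin n) K) (hq : q.IsHomogeneous d) :
    homogeneousComponent (i + d) (u * q) = homogeneousComponent i u * q := by
  have h := DirectSum.coe_decompose_mul_add_of_right_mem (homogeneousSubmodule (Fin n) K)
    (i := i) (j := d) (a := u) (b := q) hq
  have h1 : ((DirectSum.decompose (homogeneousSubmodule (Fin n) K) (u * q)) (i + d) :
      MvPolynomial (Fin n) K) = homogeneousComponent (i + d) (u * q) :=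
    decomposition.decompose'_apply _ _
  have h2 : ((DirectSum.decompose (homogeneousSubmodule (Fin n) K) u) i :
      MvPolynomial (Fin n) K) = homogeneousComponent i u := decomposition.decompose'_apply _ _
  rw [← h1, h, h2]

variable {J : Ideal (MvPolynomial (Fin n) K)}

lemma IsForm.neg {d : ℕ} {r : MvPolynomial (Fin n) K ⧸ J} (h : IsForm J d r) :
    IsForm J d (-r) := by
  obtain ⟨p, hp, rfl⟩ := h
  exact ⟨-p, hp.neg, by simp⟩

lemma IsForm.zero (d : ℕ) : IsForm J d 0 := ⟨0, isHomogeneous_zero _ _ _, by simp⟩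

lemma liftProp (hJ : ∀ p ∈ J, ∀ i : ℕ, homogeneousComponent i p ∈ J) :
    LiftProp (IsForm J 1) := by
  intro m m' A a c w hA ha hc h
  choose P hP hPA using hA
  choose Q hQ hQa using ha
  obtain ⟨q, hq, rfl⟩ := hc
  choose W hW using fun j => Ideal.Quotient.mk_surjective (w j)
  refine ⟨fun j => Ideal.Quotient.mk J (homogeneousComponent 1 (W j)),
    fun j => ⟨_, homogeneousComponent_isHomogeneous _ _, rfl⟩, ?_⟩
  ext i
  have h0 := congrFun h i
  simp only [Matrix.mulVec, dotProduct, Pi.smul_apply, smul_eq_mul] at h0 ⊢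
  have h1 : (∑ j, W j * P i j) - q * Q i ∈ J := by
    rw [← Ideal.Quotient.eq_zero_iff_mem, map_sub, map_sum, sub_eq_zero, map_mul, hQa, ← h0]
    refine Finset.sum_congr rfl fun j _ => ?_
    rw [map_mul, hW, hPA, mul_comm]
  have h2 := hJ _ h1 (1 + 1)
  rw [map_sub, map_sum, homogeneousComponent_eq_self (hq.mul (hQ i)),
    ← Ideal.Quotient.eq_zero_iff_mem, map_sub, map_sum, sub_eq_zero, map_mul, hQa] at h2
  rw [← h2]
  refine Finset.sum_congr rfl fun j _ => ?_
  rw [comp_mul_right _ _ _ _ (hP i j), map_mul, hPA, mul_comm]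

/-- Constants in the quotient. -/
noncomputable def cst (J : Ideal (MvPolynomial (Fin n) K)) (q : K) : MvPolynomial (Fin n) K ⧸ J :=
  Ideal.Quotient.mk J (C q)

lemma cst_add (p q : K) : cst J (p + q) = cst J p + cst J q := by simp [cst]
lemma cst_sub (p q : K) : cst J (p - q) = cst J p - cst J q := by simp [cst]
lemma cst_mul (p q : K) : cst J (p * q) = cst J p * cst J q := by simp [cst]
lemma cst_zero : cst J 0 = 0 := by simp [cst]
lemma cst_one : cst J 1 = 1 := by simp [cst]
lemma cst_sum {ι : Type*} (s : Finset ι) (f : ι → K) :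
    cst J (∑ i ∈ s, f i) = ∑ i ∈ s, cst J (f i) := by
  simp [cst]

/-- If a degree `d` form is a combination of forms of degree `d` modulo `J`, then
it is a combination with constant coefficients. -/
lemma const_coeffs (hJ : ∀ p ∈ J, ∀ i : ℕ, homogeneousComponent i p ∈ J) {d : ℕ}
    {ι : Type*} [Fintype ι] (r : MvPolynomial (Fin n) K ⧸ J) (hr : IsForm J d r)
    (s : ι → MvPolynomial (Fin n) K ⧸ J) (hs : ∀ i, IsForm J d (s i))
    (u : ι → MvPolynomial (Fin n) K ⧸ J) (h : r = ∑ i, u i * s i) :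
    ∃ w : ι → K, r = ∑ i, cst J (w i) * s i := by
  obtain ⟨p, hp, rfl⟩ := hr
  choose q hq hqs using hs
  choose U hU using fun i => Ideal.Quotient.mk_surjective (u i)
  have h1 : (∑ i, U i * q i) - p ∈ J := by
    rw [← Ideal.Quotient.eq_zero_iff_mem, map_sub, map_sum, h, sub_eq_zero]
    refine Finset.sum_congr rfl fun i _ => ?_
    rw [map_mul, hU, hqs]
  have h2 := hJ _ h1 (0 + d)
  rw [map_sub, map_sum, homogeneousComponent_eq_self (by rw [zero_add]; exact hp),
    ← Ideal.Quotient.eq_zero_iff_mem, map_sub, map_sum, sub_eq_zero] at h2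
  refine ⟨fun i => coeff 0 (U i), ?_⟩
  rw [← h2]
  refine Finset.sum_congr rfl fun i _ => ?_
  rw [comp_mul_right _ _ _ _ (hq i), homogeneousComponent_zero, map_mul, hqs, cst]

end Graded

section Concrete

open MvPolynomial

variable (K : Type u) [Field K]

/-- The ideal `(a^2, b^2)` of `K[a,b,u,v]`. -/
noncomputable def JJ : Ideal (MvPolynomial (Fin 4) K) := Ideal.span {X 0 ^ 2, X 1 ^ 2}

abbrev RR : Type u := MvPolynomial (Fin 4) K ⧸ JJ K

lemma JJ_hom : ∀ p ∈ JJ K, ∀ i : ℕ, homogeneousComponent i p ∈ JJ K := by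
  intro p hp i
  let _ := MvPolynomial.gradedAlgebra (σ := Fin 4) (R := K)
  refine homogeneousComponent_mem_of_mem ?_ hp i
  apply Ideal.homogeneous_span
  intro q hq
  rcases hq with rfl | hq
  · exact ⟨2, isHomogeneous_X_pow 0 2⟩
  · rw [Set.mem_singleton_iff] at hq
    subst hq
    exact ⟨2, isHomogeneous_X_pow 1 2⟩

lemma JJ_standard : IsStandard (JJ K) := by
  refine ⟨JJ_hom K, ?_⟩
  rw [JJ, Ideal.span_le]
  intro q hq
  rcases hq with rfl | hq
  · exact Ideal.pow_mem_pow (Ideal.subset_span (Set.mem_range_self _)) 2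
  · rw [Set.mem_singleton_iff] at hq
    subst hq
    exact Ideal.pow_mem_pow (Ideal.subset_span (Set.mem_range_self _)) 2

variable {K}

/-- Ring homomorphisms out of `RR`. -/
noncomputable def hom {T : Type u} [CommRing T] (f : K →+* T) (a b u v : T) (ha : a ^ 2 = 0)
    (hb : b ^ 2 = 0) : RR K →+* T :=
  Ideal.Quotient.lift (JJ K) (eval₂Hom f ![a, b, u, v]) (by
    intro p hp
    rw [JJ, Ideal.mem_span_pair] at hp
    obtain ⟨s, t, rfl⟩ := hp
    simp [ha, hb])

variable {T : Type u} [CommRing T] (f : K →+* T) (a b u v : T) (ha : a ^ 2 = 0) (hb : b ^ 2 = 0)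

lemma hom_mk (p : MvPolynomial (Fin 4) K) :
    hom f a b u v ha hb (Ideal.Quotient.mk (JJ K) p) = eval₂Hom f ![a, b, u, v] p := rfl

lemma hom_C (k : K) : hom f a b u v ha hb (Ideal.Quotient.mk (JJ K) (C k)) = f k := by
  rw [hom_mk]; simp
lemma hom_cst (k : K) : hom f a b u v ha hb (cst (JJ K) k) = f k := hom_C f a b u v ha hb k
lemma hom_X0 : hom f a b u v ha hb (Ideal.Quotient.mk (JJ K) (X 0)) = a := by
  rw [hom_mk]; simp
lemma hom_X1 : hom f a b u v ha hb (Ideal.Quotient.mk (JJ K) (X 1)) = b := by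
  rw [hom_mk]; simp
lemma hom_X2 : hom f a b u v ha hb (Ideal.Quotient.mk (JJ K) (X 2)) = u := by
  rw [hom_mk]; simp
lemma hom_X3 : hom f a b u v ha hb (Ideal.Quotient.mk (JJ K) (X 3)) = v := by
  rw [hom_mk]; simp

lemma sq_X0 : (Ideal.Quotient.mk (JJ K) (X 0)) ^ 2 = 0 := by
  rw [← map_pow, Ideal.Quotient.eq_zero_iff_mem]
  exact Ideal.subset_span (by simp)

lemma sq_X1 : (Ideal.Quotient.mk (JJ K) (X 1)) ^ 2 = 0 := by
  rw [← map_pow, Ideal.Quotient.eq_zero_iff_mem]
  exact Ideal.subset_span (by simp)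

/-- The subalgebra generated by `a, b`. -/
noncomputable def beta : BB K →+* RR K where
  toFun r := cst (JJ K) r.re.re + cst (JJ K) r.re.im * Ideal.Quotient.mk (JJ K) (X 0) +
    cst (JJ K) r.im.re * Ideal.Quotient.mk (JJ K) (X 1) +
    cst (JJ K) r.im.im * (Ideal.Quotient.mk (JJ K) (X 0) * Ideal.Quotient.mk (JJ K) (X 1))
  map_one' := by simp [cst, QuadraticAlgebra.re_one, QuadraticAlgebra.im_one]
  map_zero' := by simp [cst]
  map_add' r s := by simp [cst_add]; ring
  map_mul' r s := by
    have h0 := sq_X0 (K := K)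
    have h1 := sq_X1 (K := K)
    set A := Ideal.Quotient.mk (JJ K) (X 0)
    set B := Ideal.Quotient.mk (JJ K) (X 1)
    simp only [QuadraticAlgebra.re_mul, QuadraticAlgebra.im_mul, QuadraticAlgebra.re_add,
      QuadraticAlgebra.im_add, zero_mul, add_zero, cst_add, cst_mul]
    linear_combination (-(cst (JJ K) r.re.im + cst (JJ K) r.im.im * B) *
        (cst (JJ K) s.re.im + cst (JJ K) s.im.im * B)) * h0 -
      ((cst (JJ K) r.im.re + cst (JJ K) r.im.im * A) *
        (cst (JJ K) s.im.re + cst (JJ K) s.im.im * A) -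
        cst (JJ K) r.im.im * cst (JJ K) s.im.im * A ^ 2) * h1


/-- The polynomial ring `K[a,b]/(a^2,b^2)[u][v]`. -/
abbrev PP (K : Type u) [Field K] : Type u := Polynomial (Polynomial (BB K))

/-- scalars -/
noncomputable def scal : K →+* PP K := algebraMap K (PP K)

lemma scal_apply (k : K) : scal k = Polynomial.C (Polynomial.C (⟨⟨k, 0⟩, ⟨0, 0⟩⟩ : BB K)) := rfl

noncomputable def aP : PP K := Polynomial.C (Polynomial.C ⟨⟨0, 1⟩, ⟨0, 0⟩⟩)
noncomputable def bP : PP K := Polynomial.C (Polynomial.C ⟨⟨0, 0⟩, ⟨1, 0⟩⟩)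

lemma aP_sq : (aP : PP K) ^ 2 = 0 := by
  have : ((⟨⟨0, 1⟩, ⟨0, 0⟩⟩ : BB K)) ^ 2 = 0 := by
    rw [pow_two]; ext <;> simp
  rw [aP, ← map_pow, ← map_pow, this, map_zero, map_zero]

lemma bP_sq : (bP : PP K) ^ 2 = 0 := by
  have : ((⟨⟨0, 0⟩, ⟨1, 0⟩⟩ : BB K)) ^ 2 = 0 := by
    rw [pow_two]; ext <;> simp
  rw [bP, ← map_pow, ← map_pow, this, map_zero, map_zero]

/-- The map from the quotient to the iterated polynomial ring. -/
noncomputable def toP : RR K →+* PP K :=
  hom (K := K) (T := PP K) (scal (K := K)) (aP (K := K)) (bP (K := K))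
    (Polynomial.C Polynomial.X) Polynomial.X aP_sq bP_sq

/-- The inverse map. -/
noncomputable def ofP : PP K →+* RR K :=
  Polynomial.eval₂RingHom (Polynomial.eval₂RingHom beta (Ideal.Quotient.mk (JJ K) (X 2)))
    (Ideal.Quotient.mk (JJ K) (X 3))

lemma ofP_C (r : BB K) : ofP (Polynomial.C (Polynomial.C r)) = beta r := by
  simp [ofP]

lemma ofP_toP (r : RR K) : ofP (toP r) = r := by
  have : (ofP.comp toP).comp (Ideal.Quotient.mk (JJ K)) = Ideal.Quotient.mk (JJ K) := by
    apply MvPolynomial.ringHom_ext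
    · intro k
      simp only [RingHom.comp_apply]
      rw [toP, hom_C, scal_apply, ofP_C]
      simp [beta, cst]
    · intro i
      simp only [RingHom.comp_apply]
      fin_cases i
      · show ofP (toP (Ideal.Quotient.mk (JJ K) (X 0))) = Ideal.Quotient.mk (JJ K) (X 0)
        rw [toP, hom_X0, aP, ofP_C]
        simp [beta, cst]
      · show ofP (toP (Ideal.Quotient.mk (JJ K) (X 1))) = Ideal.Quotient.mk (JJ K) (X 1)
        rw [toP, hom_X1, bP, ofP_C]
        simp [beta, cst]
      · show ofP (toP (Ideal.Quotient.mk (JJ K) (X 2))) = Ideal.Quotient.mk (JJ K) (X 2)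
        rw [toP, hom_X2]
        simp [ofP]
      · show ofP (toP (Ideal.Quotient.mk (JJ K) (X 3))) = Ideal.Quotient.mk (JJ K) (X 3)
        rw [toP, hom_X3]
        simp [ofP]
  obtain ⟨p, rfl⟩ := Ideal.Quotient.mk_surjective r
  exact congrArg (fun h : MvPolynomial (Fin 4) K →+* RR K => h p) this

lemma toP_beta (r : BB K) : toP (beta r) = Polynomial.C (Polynomial.C r) := by
  have : beta r = cst (JJ K) r.re.re + cst (JJ K) r.re.im * Ideal.Quotient.mk (JJ K) (X 0) +
    cst (JJ K) r.im.re * Ideal.Quotient.mk (JJ K) (X 1) +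
    cst (JJ K) r.im.im * (Ideal.Quotient.mk (JJ K) (X 0) * Ideal.Quotient.mk (JJ K) (X 1)) := rfl
  rw [this]
  simp only [map_add, map_mul, toP, hom_cst, hom_X0, hom_X1, scal_apply, aP, bP]
  simp only [← map_add, ← map_mul]
  congr 2
  ext <;> simp

lemma toP_ofP (f : PP K) : toP (ofP f) = f := by
  have : (toP.comp ofP) = RingHom.id (PP K) := by
    apply Polynomial.ringHom_ext'
    · apply Polynomial.ringHom_ext'
      · ext1 r
        simp only [RingHom.comp_apply, RingHom.id_apply]
        rw [ofP_C, toP_beta]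
      · simp only [RingHom.comp_apply, RingHom.id_apply]
        have : ofP (Polynomial.C Polynomial.X) = Ideal.Quotient.mk (JJ K) (X 2) := by simp [ofP]
        rw [this, toP, hom_X2]
    · simp only [RingHom.comp_apply, RingHom.id_apply]
      have : ofP Polynomial.X = Ideal.Quotient.mk (JJ K) (X 3) := by simp [ofP]
      rw [this, toP, hom_X3]
  exact congrArg (fun h : PP K →+* PP K => h f) this

/-- The isomorphism. -/
noncomputable def eP : RR K ≃+* PP K where
  toFun := toP
  invFun := ofP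
  left_inv := ofP_toP
  right_inv := toP_ofP
  map_mul' := map_mul toP
  map_add' := map_add toP

lemma eP_apply (r : RR K) : eP r = toP r := rfl

/-- linear forms as explicit combinations -/
lemma linear_form {J : Ideal (MvPolynomial (Fin 4) K)} (r : MvPolynomial (Fin 4) K ⧸ J)
    (h : IsForm J 1 r) : ∃ a b c d : K, r = cst J a * Ideal.Quotient.mk J (X 0) +
      cst J b * Ideal.Quotient.mk J (X 1) + cst J c * Ideal.Quotient.mk J (X 2) +
      cst J d * Ideal.Quotient.mk J (X 3) := by
  obtain ⟨p, hp, rfl⟩ := h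
  rw [← mem_homogeneousSubmodule, homogeneousSubmodule_one_eq_span_X] at hp
  induction hp using Submodule.span_induction with
  | mem f hf =>
    obtain ⟨i, rfl⟩ := hf
    fin_cases i
    · exact ⟨1, 0, 0, 0, by simp [cst_one, cst_zero]⟩
    · exact ⟨0, 1, 0, 0, by simp [cst_one, cst_zero]⟩
    · exact ⟨0, 0, 1, 0, by simp [cst_one, cst_zero]⟩
    · exact ⟨0, 0, 0, 1, by simp [cst_one, cst_zero]⟩
  | zero => exact ⟨0, 0, 0, 0, by simp [cst_zero]⟩
  | add f g _ _ hf hg =>
    obtain ⟨a, b, c, d, h1⟩ := hf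
    obtain ⟨a', b', c', d', h2⟩ := hg
    refine ⟨a + a', b + b', c + c', d + d', ?_⟩
    rw [map_add, h1, h2, cst_add, cst_add, cst_add, cst_add]
    ring
  | smul k f _ hf =>
    obtain ⟨a, b, c, d, h1⟩ := hf
    refine ⟨k * a, k * b, k * c, k * d, ?_⟩
    rw [MvPolynomial.smul_eq_C_mul, map_mul, h1, cst_mul, cst_mul, cst_mul, cst_mul]
    show cst J k * _ = _
    ring

lemma isForm_comb {J : Ideal (MvPolynomial (Fin 4) K)} (a b c d : K) :
    IsForm J 1 (cst J a * Ideal.Quotient.mk J (X 0) +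
      cst J b * Ideal.Quotient.mk J (X 1) + cst J c * Ideal.Quotient.mk J (X 2) +
      cst J d * Ideal.Quotient.mk J (X 3)) := by
  refine ⟨C a * X 0 + C b * X 1 + C c * X 2 + C d * X 3, ?_, by simp [cst]⟩
  exact (((isHomogeneous_C_mul_X _ _).add (isHomogeneous_C_mul_X _ _)).add
    (isHomogeneous_C_mul_X _ _)).add (isHomogeneous_C_mul_X _ _)

lemma isForm_iff (r : RR K) :
    IsForm (JJ K) 1 r ↔ eP r ∈ polyLin (polyLin (baseLin K)) := by
  constructor
  · intro h
    obtain ⟨a, b, c, d, rfl⟩ := linear_form r h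
    refine ⟨Polynomial.C ⟨⟨0, a⟩, ⟨b, 0⟩⟩ + c • Polynomial.X, ⟨_, ⟨a, b, rfl⟩, c, rfl⟩, d, ?_⟩
    rw [eP_apply]
    simp only [map_add, map_mul, toP, hom_cst, hom_X0, hom_X1, hom_X2, hom_X3, scal_apply, aP, bP]
    have e1 : (⟨⟨0, a⟩, ⟨b, 0⟩⟩ : BB K) = ⟨⟨a, 0⟩, ⟨0, 0⟩⟩ * ⟨⟨0, 1⟩, ⟨0, 0⟩⟩ +
        ⟨⟨b, 0⟩, ⟨0, 0⟩⟩ * ⟨⟨0, 0⟩, ⟨1, 0⟩⟩ := by ext <;> simp
    have e2 : c • (Polynomial.X : Polynomial (BB K)) =
        Polynomial.C (⟨⟨c, 0⟩, ⟨0, 0⟩⟩ : BB K) * Polynomial.X := by
      rw [Algebra.smul_def]; rfl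
    have e3 : d • (Polynomial.X : PP K) =
        Polynomial.C (Polynomial.C (⟨⟨d, 0⟩, ⟨0, 0⟩⟩ : BB K)) * Polynomial.X := by
      rw [Algebra.smul_def]; rfl
    rw [e1, e2, e3]
    simp only [map_add, map_mul]
  · rintro ⟨_, ⟨_, ⟨a, b, rfl⟩, c, rfl⟩, d, h⟩
    have h2 := isForm_comb (J := JJ K) a b c d
    convert h2 using 1
    apply eP.injective
    rw [h]
    rw [eP_apply]
    simp only [map_add, map_mul, toP, hom_cst, hom_X0, hom_X1, hom_X2, hom_X3, scal_apply, aP, bP]
    have e1 : (⟨⟨0, a⟩, ⟨b, 0⟩⟩ : BB K) = ⟨⟨a, 0⟩, ⟨0, 0⟩⟩ * ⟨⟨0, 1⟩, ⟨0, 0⟩⟩ +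
        ⟨⟨b, 0⟩, ⟨0, 0⟩⟩ * ⟨⟨0, 0⟩, ⟨1, 0⟩⟩ := by ext <;> simp
    have e2 : c • (Polynomial.X : Polynomial (BB K)) =
        Polynomial.C (⟨⟨c, 0⟩, ⟨0, 0⟩⟩ : BB K) * Polynomial.X := by
      rw [Algebra.smul_def]; rfl
    have e3 : d • (Polynomial.X : PP K) =
        Polynomial.C (Polynomial.C (⟨⟨d, 0⟩, ⟨0, 0⟩⟩ : BB K)) * Polynomial.X := by
      rw [Algebra.smul_def]; rfl
    rw [e1, e2, e3]
    simp only [map_add, map_mul]

lemma colonProp_RR : ColonProp (IsForm (JJ K) 1) := by
  have h0 := colonProp_base (K := K)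
  have h1 := colonProp_poly (K := K) (R := BB K) (baseLin K) h0
  have h2 := colonProp_poly (K := K) (R := Polynomial (BB K)) (polyLin (baseLin K)) h1
  exact ColonProp.of_equiv (R := RR K) (R' := PP K) (eP (K := K)) (IsForm (JJ K) 1)
    (fun f => f ∈ polyLin (polyLin (baseLin K))) isForm_iff h2

/-- `K[a,b,u,v]/(a^2,b^2)` is universally Koszul. -/
theorem universallyKoszul_JJ : UniversallyKoszul (JJ K) := by
  intro I hI
  obtain ⟨b, g, A, h1, h2, h3, h4, h5⟩ := exists_linear_resolution (L := IsForm (JJ K) 1)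
    (IsForm.zero 1) (fun _ h => h.neg) (liftProp (JJ_hom K)) colonProp_RR I hI
  exact ⟨b, g, A, h1, h2, h3, h4, h5⟩


noncomputable def xx : RR K := Ideal.Quotient.mk (JJ K) (X 2)
noncomputable def yy : RR K := Ideal.Quotient.mk (JJ K) (X 2) + Ideal.Quotient.mk (JJ K) (X 0)
noncomputable def zz : RR K := Ideal.Quotient.mk (JJ K) (X 3)
noncomputable def tt : RR K := Ideal.Quotient.mk (JJ K) (X 3) + Ideal.Quotient.mk (JJ K) (X 1)

lemma form_xx : IsForm (JJ K) 1 xx := ⟨X 2, isHomogeneous_X _ _, rfl⟩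
lemma form_zz : IsForm (JJ K) 1 zz := ⟨X 3, isHomogeneous_X _ _, rfl⟩
lemma form_yy : IsForm (JJ K) 1 yy :=
  ⟨X 2 + X 0, (isHomogeneous_X _ _).add (isHomogeneous_X _ _), by simp [yy]⟩
lemma form_tt : IsForm (JJ K) 1 tt :=
  ⟨X 3 + X 1, (isHomogeneous_X _ _).add (isHomogeneous_X _ _), by simp [tt]⟩

lemma IsForm.mul {J : Ideal (MvPolynomial (Fin 4) K)} {d d' : ℕ}
    {r s : MvPolynomial (Fin 4) K ⧸ J} (h : IsForm J d r) (h' : IsForm J d' s) :
    IsForm J (d + d') (r * s) := by
  obtain ⟨p, hp, rfl⟩ := h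
  obtain ⟨q, hq, rfl⟩ := h'
  exact ⟨p * q, hp.mul hq, by simp⟩

lemma linear_form' (r : RR K) (h : IsForm (JJ K) 1 r) :
    ∃ a b c d : K, r = cst (JJ K) a * xx + cst (JJ K) b * yy + cst (JJ K) c * zz +
      cst (JJ K) d * tt := by
  obtain ⟨a, b, c, d, rfl⟩ := linear_form r h
  refine ⟨c - a, a, d - b, b, ?_⟩
  simp only [xx, yy, zz, tt, cst_sub]
  ring

/-- `ε` and `τ` in `K[ε,τ]/(ε^2,τ^2)`. -/
def ep : BB K := ⟨⟨0, 1⟩, ⟨0, 0⟩⟩
def ta : BB K := ⟨⟨0, 0⟩, ⟨1, 0⟩⟩
def sc : K →+* BB K := algebraMap K (BB K)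
lemma sc_apply (k : K) : sc k = ⟨⟨k, 0⟩, ⟨0, 0⟩⟩ := rfl
lemma ep_sq : (ep : BB K) ^ 2 = 0 := by rw [pow_two, ep]; ext <;> simp
lemma ta_sq : (ta : BB K) ^ 2 = 0 := by rw [pow_two, ta]; ext <;> simp

/-- `x ↦ 1, y ↦ 1 + ε, z ↦ 0, t ↦ τ`. -/
noncomputable def h1 : RR K →+* BB K :=
  hom (K := K) (T := BB K) (sc (K := K)) ep ta 1 0 ep_sq ta_sq
/-- `x ↦ τ, y ↦ 0, z ↦ 1 + ε, t ↦ 1`. -/
noncomputable def h2 : RR K →+* BB K :=
  hom (K := K) (T := BB K) (sc (K := K)) (-ta) (-ep) ta (1 + ep)
    (by rw [neg_pow_two, ta_sq]) (by rw [neg_pow_two, ep_sq])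
/-- `x ↦ ε, y ↦ 0, z ↦ 0, t ↦ τ`. -/
noncomputable def h3 : RR K →+* BB K :=
  hom (K := K) (T := BB K) (sc (K := K)) (-ep) ta ep 0 (by rw [neg_pow_two, ep_sq]) ta_sq

/-- The key computation: in a linear syzygy of `xy, xt, zy, zt` the coefficient of `xt` lies in
the ideal `(y,z)`. -/
lemma linear_syzygy (L1 L2 L3 L4 : RR K)
    (hL1 : IsForm (JJ K) 1 L1) (hL2 : IsForm (JJ K) 1 L2)
    (hL3 : IsForm (JJ K) 1 L3) (hL4 : IsForm (JJ K) 1 L4)
    (h : L1 * (xx * yy) + L2 * (xx * tt) + L3 * (zz * yy) + L4 * (zz * tt) = 0) :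
    L2 ∈ Ideal.span {yy, zz} := by
  obtain ⟨a1, b1, c1, d1, rfl⟩ := linear_form' _ hL1
  obtain ⟨a2, b2, c2, d2, rfl⟩ := linear_form' _ hL2
  obtain ⟨a3, b3, c3, d3, rfl⟩ := linear_form' _ hL3
  obtain ⟨a4, b4, c4, d4, rfl⟩ := linear_form' _ hL4
  have e1 := congrArg h1 h
  have e2 := congrArg h2 h
  simp only [map_add, map_mul, map_zero, h1, h2, hom_cst, xx, yy, zz, tt, hom_X0, hom_X1, hom_X2,
    hom_X3, sc_apply] at e1 e2
  have f1 := congrArg (fun w => w.im.re) e1
  have f2 := congrArg (fun w => w.im.im) e1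
  have f3 := congrArg (fun w => w.im.re) e2
  have f4 := congrArg (fun w => w.im.im) e2
  simp [ep, ta, QuadraticAlgebra.re_one, QuadraticAlgebra.im_one] at f1 f2 f3 f4
  have ha2 : a2 = 0 := by linear_combination f1 - f2
  have hd2 : d2 = 0 := by linear_combination f3 - f4
  rw [ha2, hd2, cst_zero, Ideal.mem_span_pair]
  exact ⟨cst (JJ K) b2, cst (JJ K) c2, by ring⟩

lemma h3_mem {r : RR K} (hr : r ∈ Ideal.span {yy, zz}) : h3 r = 0 := by
  rw [Ideal.mem_span_pair] at hr
  obtain ⟨s, u, rfl⟩ := hr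
  have e1 : h3 (yy : RR K) = 0 := by
    simp only [h3, yy, map_add, hom_X2, hom_X0, add_neg_cancel]
  have e2 : h3 (zz : RR K) = 0 := by
    simp only [h3, zz, hom_X3]
  rw [map_add, map_mul, map_mul, e1, e2, mul_zero, mul_zero, add_zero]

lemma h3_xt : h3 (xx * tt : RR K) = ⟨⟨0, 0⟩, ⟨0, 1⟩⟩ := by
  simp only [h3, xx, tt, map_mul, map_add, hom_X2, hom_X1, hom_X3]
  ext <;> simp [ep, ta]

lemma xt_not_mem : (xx * tt : RR K) ∉ Ideal.span {yy, zz} := by
  intro h
  have e1 := h3_mem h
  rw [h3_xt] at e1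
  have := congrArg (fun w => w.im.im) e1
  simp at this

lemma syz_identity : (yy * zz - 2 * xx * zz) * (zz * yy) + (2 * xx * zz - xx * tt) * (xx * tt)
    = (0 : RR K) := by
  have h0 := sq_X0 (K := K)
  have h1 := sq_X1 (K := K)
  have e0 : (yy - xx : RR K) ^ 2 = 0 := by
    rw [← h0]; simp only [yy, xx]; ring
  have e1 : (tt - zz : RR K) ^ 2 = 0 := by
    rw [← h1]; simp only [tt, zz]; ring
  linear_combination zz ^ 2 * e0 - xx ^ 2 * e1

/-- The four products generating the product ideal. -/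
noncomputable def GG : Fin 4 → RR K := ![xx * yy, xx * tt, zz * yy, zz * tt]

lemma GG_form (i : Fin 4) : IsForm (JJ K) 2 (GG i) := by
  fin_cases i
  · exact form_xx.mul form_yy
  · exact form_xx.mul form_tt
  · exact form_zz.mul form_yy
  · exact form_zz.mul form_tt

lemma sum_GG (w : Fin 4 → RR K) : ∑ i, w i * GG i =
    w 0 * (xx * yy) + w 1 * (xx * tt) + w 2 * (zz * yy) + w 3 * (zz * tt) := by
  simp [Fin.sum_univ_four, GG]

lemma mem_prod {r : RR K} (h : r ∈ (Ideal.span {xx, zz} : Ideal (RR K)) * Ideal.span {yy, tt}) :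
    ∃ w : Fin 4 → RR K, r = ∑ i, w i * GG i := by
  rw [Ideal.span_pair_mul_span_pair] at h
  simp only [Ideal.mem_span_insert, Ideal.mem_span_singleton'] at h
  obtain ⟨a, _, ⟨b, _, ⟨c, _, ⟨d, rfl⟩, rfl⟩, rfl⟩, rfl⟩ := h
  refine ⟨![a, b, c, d], ?_⟩
  rw [sum_GG]
  simp
  ring

lemma GG_mem (i : Fin 4) :
    GG i ∈ (Ideal.span {xx, zz} : Ideal (RR K)) * Ideal.span {yy, tt} := by
  fin_cases i
  all_goals exact Ideal.mul_mem_mul (Ideal.subset_span (by simp)) (Ideal.subset_span (by simp))

lemma GG_indep (a b c d : K) (h : cst (JJ K) a * (xx * yy) + cst (JJ K) b * (xx * tt) +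
    cst (JJ K) c * (zz * yy) + cst (JJ K) d * (zz * tt) = 0) : b = 0 := by
  have h' := congrArg h3 h
  have m1 : cst (JJ K) a * (xx * yy) ∈ Ideal.span {yy, zz} :=
    Ideal.mul_mem_left _ _ (Ideal.mul_mem_left _ _ (Ideal.subset_span (by simp)))
  have m3 : cst (JJ K) c * (zz * yy) ∈ Ideal.span {yy, zz} :=
    Ideal.mul_mem_left _ _ (Ideal.mul_mem_right _ _ (Ideal.subset_span (by simp)))
  have m4 : cst (JJ K) d * (zz * tt) ∈ Ideal.span {yy, zz} :=
    Ideal.mul_mem_left _ _ (Ideal.mul_mem_right _ _ (Ideal.subset_span (by simp)))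
  rw [map_add, map_add, map_add, h3_mem m1, h3_mem m3, h3_mem m4, map_mul h3 (cst (JJ K) b),
    h3_xt, map_zero] at h'
  have e1 : h3 (cst (JJ K) b) = ⟨⟨b, 0⟩, ⟨0, 0⟩⟩ := by
    simp only [h3, hom_cst, sc_apply]
  rw [e1] at h'
  have := congrArg (fun w => w.im.im) h'
  simpa using this

/-- The product ideal is not presented by linear syzygies. -/
lemma no_linear_presentation (b0 b1 : ℕ) (g : Fin b0 → RR K) (M : Matrix (Fin b0) (Fin b1) (RR K))
    (hg : ∀ j, IsForm (JJ K) 2 (g j)) (hM : ∀ a c, IsForm (JJ K) 1 (M a c))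
    (hspan : Ideal.span (Set.range g) =
      (Ideal.span {xx, zz} : Ideal (RR K)) * Ideal.span {yy, tt})
    (hex : ∀ v : Fin b0 → RR K, ∑ j, v j * g j = 0 ↔ ∃ w, M.mulVec w = v) : False := by
  -- the generators `g` are constant combinations of the four products
  have hw : ∀ j, ∃ w : Fin 4 → K, g j = ∑ i, cst (JJ K) (w i) * GG i := by
    intro j
    have h1 : g j ∈ (Ideal.span {xx, zz} : Ideal (RR K)) * Ideal.span {yy, tt} := by
      rw [← hspan]; exact Ideal.subset_span ⟨j, rfl⟩
    obtain ⟨u, hu⟩ := mem_prod h1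
    exact const_coeffs (JJ_hom K) (g j) (hg j) GG GG_form u hu
  choose w hw using hw
  -- the four products are constant combinations of the generators `g`
  have hc : ∀ k : Fin 4, ∃ c : Fin b0 → K, GG k = ∑ j, cst (JJ K) (c j) * g j := by
    intro k
    have h1 : GG k ∈ Ideal.span (Set.range g) := by
      rw [hspan]
      exact GG_mem k
    obtain ⟨u, hu⟩ := (Ideal.mem_span_range_iff_exists_fun).mp h1
    exact const_coeffs (JJ_hom K) (GG k) (GG_form k) g hg u hu.symm
  choose c hc using hc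
  have hGxt : (GG 1 : RR K) = xx * tt := by simp [GG]
  have hGzy : (GG 2 : RR K) = zz * yy := by simp [GG]
  -- sums of the coefficients of `xt`
  have key : ∀ k : Fin 4, ∃ v : Fin 4 → K, v 1 = ∑ j, c k j * w j 1 ∧
      GG k = ∑ i, cst (JJ K) (v i) * GG i := by
    intro k
    refine ⟨fun i => ∑ j, c k j * w j i, rfl, ?_⟩
    rw [hc k]
    simp only [hw, cst_sum, cst_mul, Finset.mul_sum, Finset.sum_mul]
    rw [Finset.sum_comm]
    refine Finset.sum_congr rfl fun i _ => Finset.sum_congr rfl fun j _ => ?_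
    ring
  have h1 : ∑ j, c 1 j * w j 1 = 1 := by
    obtain ⟨v, hv, hk⟩ := key 1
    rw [← hv]
    rw [hGxt, sum_GG] at hk
    have := GG_indep (v 0) (v 1 - 1) (v 2) (v 3) (by
      rw [cst_sub, cst_one]
      linear_combination -hk)
    linear_combination this
  have h2 : ∑ j, c 2 j * w j 1 = 0 := by
    obtain ⟨v, hv, hk⟩ := key 2
    rw [← hv]
    rw [hGzy, sum_GG] at hk
    exact GG_indep (v 0) (v 1) (v 2 - 1) (v 3) (by
      rw [cst_sub, cst_one]
      linear_combination -hk)
  -- the quadratic syzygy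
  have hsyz : ∑ j, ((2 * xx * zz - xx * tt) * cst (JJ K) (c 1 j) +
      (yy * zz - 2 * xx * zz) * cst (JJ K) (c 2 j)) * g j = 0 := by
    have : ∑ j, ((2 * xx * zz - xx * tt) * cst (JJ K) (c 1 j) +
      (yy * zz - 2 * xx * zz) * cst (JJ K) (c 2 j)) * g j =
        (2 * xx * zz - xx * tt) * (∑ j, cst (JJ K) (c 1 j) * g j) +
        (yy * zz - 2 * xx * zz) * (∑ j, cst (JJ K) (c 2 j) * g j) := by
      rw [Finset.mul_sum, Finset.mul_sum, ← Finset.sum_add_distrib]
      refine Finset.sum_congr rfl fun j _ => ?_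
      ring
    rw [this, ← hc 1, ← hc 2, hGxt, hGzy]
    linear_combination syz_identity (K := K)
  obtain ⟨u, hu⟩ := (hex _).mp hsyz
  -- every column of `M` pairs into `(y,z)`
  have hcol : ∀ l : Fin b1, ∑ j, M j l * cst (JJ K) (w j 1) ∈ Ideal.span {yy, zz} := by
    intro l
    have hrel : ∑ j, M j l * g j = 0 := by
      rw [hex]
      exact ⟨Pi.single l 1, by ext j; simp⟩
    have hL : ∀ i : Fin 4, IsForm (JJ K) 1 (∑ j, M j l * cst (JJ K) (w j i)) := by
      intro i
      choose P hP hPM using fun j => hM j l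
      refine ⟨∑ j, C (w j i) * P j, IsHomogeneous.sum _ _ _ fun j _ => (hP j).C_mul _, ?_⟩
      rw [map_sum]
      refine Finset.sum_congr rfl fun j _ => ?_
      rw [map_mul, hPM, mul_comm, cst]
    refine linear_syzygy (∑ j, M j l * cst (JJ K) (w j 0)) _ (∑ j, M j l * cst (JJ K) (w j 2))
      (∑ j, M j l * cst (JJ K) (w j 3)) (hL 0) (hL 1) (hL 2) (hL 3) ?_
    rw [← hrel]
    simp only [hw, sum_GG, Finset.sum_mul, ← Finset.sum_add_distrib]
    refine Finset.sum_congr rfl fun j _ => ?_
    ring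
  have hfin : (2 * xx * zz - xx * tt : RR K) ∈ Ideal.span {yy, zz} := by
    have h3 : ∑ j, ((2 * xx * zz - xx * tt) * cst (JJ K) (c 1 j) +
      (yy * zz - 2 * xx * zz) * cst (JJ K) (c 2 j)) * cst (JJ K) (w j 1) =
        2 * xx * zz - xx * tt := by
      have : ∑ j, ((2 * xx * zz - xx * tt) * cst (JJ K) (c 1 j) +
          (yy * zz - 2 * xx * zz) * cst (JJ K) (c 2 j)) * cst (JJ K) (w j 1) =
          (2 * xx * zz - xx * tt) * cst (JJ K) (∑ j, c 1 j * w j 1) +
          (yy * zz - 2 * xx * zz) * cst (JJ K) (∑ j, c 2 j * w j 1) := by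
        simp only [cst_sum, cst_mul]
        rw [Finset.mul_sum, Finset.mul_sum, ← Finset.sum_add_distrib]
        refine Finset.sum_congr rfl fun j _ => ?_
        ring
      rw [this, h1, h2, cst_one, cst_zero]
      ring
    rw [← h3]
    have h4 : ∑ j, ((2 * xx * zz - xx * tt) * cst (JJ K) (c 1 j) +
      (yy * zz - 2 * xx * zz) * cst (JJ K) (c 2 j)) * cst (JJ K) (w j 1) =
        ∑ l, u l * ∑ j, M j l * cst (JJ K) (w j 1) := by
      have h5 : ∀ j, ((2 * xx * zz - xx * tt) * cst (JJ K) (c 1 j) +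
          (yy * zz - 2 * xx * zz) * cst (JJ K) (c 2 j)) = ∑ l, M j l * u l := by
        intro j
        have := congrFun hu j
        rw [← this]
        rfl
      simp only [h5, Finset.sum_mul, Finset.mul_sum]
      rw [Finset.sum_comm]
      refine Finset.sum_congr rfl fun i _ => Finset.sum_congr rfl fun j _ => ?_
      ring
    rw [h4]
    exact Ideal.sum_mem _ fun l _ => Ideal.mul_mem_left _ _ (hcol l)
  have hfin2 : (xx * tt : RR K) ∈ Ideal.span {yy, zz} := by
    have e1 : (2 * xx * zz : RR K) ∈ Ideal.span {yy, zz} :=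
      Ideal.mul_mem_left _ _ (Ideal.subset_span (by simp))
    have e2 := Ideal.sub_mem _ e1 hfin
    have e3 : (2 * xx * zz - (2 * xx * zz - xx * tt) : RR K) = xx * tt := by ring
    rwa [e3] at e2
  exact xt_not_mem hfin2

end Concrete

/-- Over every field `K` there is a universally Koszul standard graded `K`-algebra
`R = K[x_1,…,x_n]/J` and ideals `I_1,…,I_d` of `R` (`d ≥ 1`) generated by linear forms whose product
is nonzero and does not have a `d`-linear free resolution over `R`, that is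
`reg_R(I_1 ⋯ I_d) > d`. -/
theorem result : ∀ (K : Type u) [Field K], ∃ (n : ℕ) (J : Ideal (MvPolynomial (Fin n) K)),
    IsStandard J ∧ UniversallyKoszul J ∧
    ∃ (d : ℕ) (I : Fin d → Ideal (MvPolynomial (Fin n) K ⧸ J)), 1 ≤ d ∧
      (∀ k, LinearlyGenerated J (I k)) ∧ ∏ k, I k ≠ ⊥ ∧
      ¬ HasLinearResolution J (∏ k, I k) d := by
  intro K _
  have hprod : (∏ k, (![Ideal.span {xx, zz}, Ideal.span {yy, tt}] : Fin 2 → Ideal (RR K)) k) =
      (Ideal.span {xx, zz} : Ideal (RR K)) * Ideal.span {yy, tt} := by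
    simp [Fin.prod_univ_two]
  refine ⟨4, JJ K, JJ_standard K, universallyKoszul_JJ, 2,
    ![Ideal.span {xx, zz}, Ideal.span {yy, tt}], by norm_num, ?_, ?_, ?_⟩
  · intro k
    fin_cases k
    · refine linGen_span (L := IsForm (JJ K) 1) _ ?_
      intro r hr
      simp only [Set.mem_insert_iff, Set.mem_singleton_iff] at hr
      rcases hr with rfl | rfl
      · exact form_xx
      · exact form_zz
    · refine linGen_span (L := IsForm (JJ K) 1) _ ?_
      intro r hr
      simp only [Set.mem_insert_iff, Set.mem_singleton_iff] at hr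
      rcases hr with rfl | rfl
      · exact form_yy
      · exact form_tt
  · rw [hprod]
    intro hbot
    have h1 : (xx * tt : RR K) ∈ (Ideal.span {xx, zz} : Ideal (RR K)) * Ideal.span {yy, tt} :=
      Ideal.mul_mem_mul (Ideal.subset_span (by simp)) (Ideal.subset_span (by simp))
    rw [hbot, Ideal.mem_bot] at h1
    exact xt_not_mem (by rw [h1]; exact Ideal.zero_mem _)
  · rintro ⟨b, g, A, hg, hA, hspan, hex, -⟩
    exact no_linear_presentation (b 0) (b 1) g (A 0) hg (hA 0) (hspan.trans hprod) hex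

end Pool.Agent.Results.MP_49092c_al.Disproof
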